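import Pool.Agent.Helper81.XP.StA
import Pool.Agent.Helper81.XP.Pj

set_option autoImplicit false

/-!
# Generating sets have no small invariant sets
-/

open Finset
open scoped Pointwise LinearAlgebra.Projectivization

namespace Pool.Agent.Helper72.XP

open Pool.Agent.Helper81.XP

namespace NIV

/-- An element of order `p` fixes the points of invariant sets with less than `p` points. -/
theorem fix_of_pow {K : Type} [Field K] (p : ℕ) (hp : p.Prime) (g : SL K) (hg : g ^ p = 1)
    (Φ : Finset (Pt K)) (hΦ : ∀ y ∈ Φ, g • y ∈ Φ) (hc : Φ.card < p) (y : Pt K) (hy : y ∈ Φ) :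
    g • y = y := by
  classical
  set f : Pt K → Pt K := fun y => g • y with hf
  have hit : ∀ (k : ℕ) (z : Pt K), f^[k] z = g ^ k • z := by
    intro k
    induction k with
    | zero => intro z; simp
    | succ k ih =>
      intro z
      rw [Function.iterate_succ_apply', ih, hf, pow_succ', mul_smul]
  have hper : Function.IsPeriodicPt f p y := by
    rw [Function.IsPeriodicPt, Function.IsFixedPt, hit, hg, one_smul]
  have hdvd := hper.minimalPeriod_dvd
  rcases (Nat.dvd_prime hp).1 hdvd with h1 | h1
  · have := Function.minimalPeriod_eq_one_iff_isFixedPt.1 h1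
    exact this
  · exfalso
    have hinj : Set.InjOn (fun k => f^[k] y) (Set.Iio (Function.minimalPeriod f y)) :=
      Function.iterate_injOn_Iio_minimalPeriod
    have hmem : ∀ k, f^[k] y ∈ Φ := by
      intro k
      induction k with
      | zero => exact hy
      | succ k ih =>
        rw [Function.iterate_succ_apply']
        exact hΦ _ ih
    have hcard : ((Finset.range p).image (fun k => f^[k] y)).card = p := by
      rw [Finset.card_image_of_injOn, Finset.card_range]
      rw [h1] at hinj
      rwa [Finset.coe_range]
    have hsub : (Finset.range p).image (fun k => f^[k] y) ⊆ Φ := by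
      intro z hz
      obtain ⟨k, _, rfl⟩ := Finset.mem_image.1 hz
      exact hmem k
    have := Finset.card_le_card hsub
    omega

/-- The matrix `[[1, t], [0, 1]]`. -/
def uU {K : Type} [CommRing K] (t : K) : SL K := ⟨!![1, t; 0, 1], by simp [Matrix.det_fin_two]⟩

/-- The matrix `[[1, 0], [t, 1]]`. -/
def uL {K : Type} [CommRing K] (t : K) : SL K := ⟨!![1, 0; t, 1], by simp [Matrix.det_fin_two]⟩

theorem uU_pow {K : Type} [CommRing K] (k : ℕ) : (uU (1 : K)) ^ k = uU (k : K) := by
  induction k with
  | zero =>
    rw [pow_zero]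
    ext i j
    fin_cases i <;> fin_cases j <;> simp [uU]
  | succ k ih =>
    rw [pow_succ, ih]
    ext i j
    fin_cases i <;> fin_cases j <;> simp [uU, Matrix.mul_apply, Fin.sum_univ_two]
    ring

theorem uL_pow {K : Type} [CommRing K] (k : ℕ) : (uL (1 : K)) ^ k = uL (k : K) := by
  induction k with
  | zero =>
    rw [pow_zero]
    ext i j
    fin_cases i <;> fin_cases j <;> simp [uL]
  | succ k ih =>
    rw [pow_succ, ih]
    ext i j
    fin_cases i <;> fin_cases j <;> simp [uL, Matrix.mul_apply, Fin.sum_univ_two]

theorem uU_zero {K : Type} [CommRing K] : uU (0 : K) = 1 := by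
  ext i j
  fin_cases i <;> fin_cases j <;> simp [uU]

theorem uL_zero {K : Type} [CommRing K] : uL (0 : K) = 1 := by
  ext i j
  fin_cases i <;> fin_cases j <;> simp [uL]

end NIV

open Classical NIV in
theorem st_NIV : ST_NIV := by
  intro p hpf hp5 A hA Φ hne hcard
  by_contra hcon
  push Not at hcon
  have hp : p.Prime := hpf.out
  -- invariance under all elements
  have hinv : ∀ g : SL (ZMod p), ∀ y ∈ Φ, io p g • y ∈ Φ := by
    intro g
    have hg : g ∈ Subgroup.closure (A : Set (SL (ZMod p))) := by rw [hA]; exact Subgroup.mem_top g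
    induction hg using Subgroup.closure_induction with
    | mem x hx =>
      intro y hy
      exact hcon (io p x) (Finset.mem_image_of_mem _ hx) y hy
    | one =>
      intro y hy
      rwa [map_one, one_smul]
    | mul a b _ _ ha hb =>
      intro y hy
      rw [map_mul, mul_smul]
      exact ha _ (hb y hy)
    | inv a _ ha =>
      intro y hy
      have h1 : Φ.image (fun y => io p a • y) ⊆ Φ := by
        intro z hz
        obtain ⟨w, hw, rfl⟩ := Finset.mem_image.1 hz
        exact ha w hw
      have h2 : Φ.card ≤ (Φ.image (fun y => io p a • y)).card := by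
        rw [Finset.card_image_of_injective]
        exact MulAction.injective _
      have h3 := Finset.eq_of_subset_of_card_le h1 h2
      rw [← h3] at hy
      obtain ⟨w, hw, rfl⟩ := Finset.mem_image.1 hy
      rwa [map_inv, inv_smul_smul]
  have hcp : Φ.card < p := by omega
  obtain ⟨y, hy⟩ := hne
  have hU : io p (uU 1) • y = y := by
    refine fix_of_pow p hp _ ?_ Φ (hinv _) hcp y hy
    rw [← map_pow, uU_pow, ZMod.natCast_self, uU_zero, map_one]
  have hL : io p (uL 1) • y = y := by
    refine fix_of_pow p hp _ ?_ Φ (hinv _) hcp y hy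
    rw [← map_pow, uL_pow, ZMod.natCast_self, uL_zero, map_one]
  obtain ⟨v, hv, rfl⟩ : ∃ v, ∃ hv : v ≠ 0, Projectivization.mk _ v hv = y :=
    ⟨y.rep, y.rep_nonzero, y.mk_rep⟩
  rw [smul_pt_fix_iff] at hU hL
  obtain ⟨c, hc⟩ := hU
  obtain ⟨d, hd⟩ := hL
  have c0 := congrFun hc 0
  have c1 := congrFun hc 1
  have d0 := congrFun hd 0
  have d1 := congrFun hd 1
  simp [io, uU, Matrix.mulVec, dotProduct, Fin.sum_univ_two] at c0 c1
  simp [io, uL, Matrix.mulVec, dotProduct, Fin.sum_univ_two] at d0 d1
  have hv1 : v 1 = 0 := by
    by_contra h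
    have hc1 : c = 1 := by
      have := c1
      grind
    rw [hc1, one_mul] at c0
    exact h (by linear_combination c0)
  have hv0 : v 0 = 0 := by
    by_contra h
    have hd1 : d = 1 := by
      grind
    rw [hd1, one_mul] at d1
    exact h (by linear_combination d1)
  apply hv
  funext i
  fin_cases i
  · exact hv0
  · exact hv1

end Pool.Agent.Helper72.XP
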